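import Mathlib

namespace Pool.Agent.MP_89824e_co

open scoped Pointwise

/-- `D` is isomorphic to the Cayley-coset digraph `D(G,S,H)`: `S` misses `H`, the vertices are the
left cosets of `H`, and `xH → yH` is an arc iff `x⁻¹ y ∈ H S H`. -/
def IsPres {V : Type} (D : Digraph V) (G : Type) [Group G] (H : Subgroup G) (S : Set G) : Prop :=
  Disjoint S (H : Set G) ∧ ∃ e : V ≃ G ⧸ H, ∀ x y : G,
    D.Adj (e.symm (x : G ⧸ H)) (e.symm (y : G ⧸ H)) ↔ x⁻¹ * y ∈ (H : Set G) * S * (H : Set G)

/-- `D` has a Cayley-coset presentation by a finite group with `|H| = k`. -/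
def HasPres {V : Type} (D : Digraph V) (k : ℕ) : Prop :=
  ∃ (G : Type) (_ : Group G) (_ : Finite G) (H : Subgroup G) (S : Set G),
    IsPres D G H S ∧ Nat.card H = k

/-- The directed Praeger-Xu digraph: vertices `(i, w)` with `i` modulo `r` and `w` a binary word
of length `s`; arcs raise `i` by one and shift the word by one place. -/
def PX (r s : ℕ) : Digraph (ZMod r × (Fin s → ZMod 2)) where
  Adj u w := w.1 = u.1 + 1 ∧ ∀ i j : Fin s, (j : ℕ) = (i : ℕ) + 1 → w.2 j = u.2 i

/-- `D` is a regular cover of `E`: a group `N` of automorphisms of `D` acts freely, and a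
surjection `p` whose fibres are the `N`-orbits maps the out-neighbours of every vertex
bijectively onto the out-neighbours of its image. -/
def RegCover {V W : Type} (D : Digraph V) (E : Digraph W) : Prop :=
  ∃ (p : V → W) (N : Subgroup (Equiv.Perm V)), Function.Surjective p ∧
    (∀ n ∈ N, ∀ x y, D.Adj (n x) (n y) ↔ D.Adj x y) ∧ (∀ n ∈ N, ∀ x, n x = x → n = 1) ∧
    (∀ x y, p x = p y ↔ ∃ n ∈ N, n x = y) ∧
    ∀ x, Set.BijOn p {y | D.Adj x y} {z | E.Adj (p x) z}

end Pool.Agent.MP_89824e_co
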