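import Mathlib
import Pool.Agent.MP_89824e_co.Defs

namespace Pool.Agent.MP_89824e_co

open scoped Pointwise

variable {V : Type}

def IsAut (A : V → V → Prop) (φ : Equiv.Perm V) : Prop := ∀ x y, A (φ x) (φ y) ↔ A x y

def Out2 (A : V → V → Prop) : Prop := ∀ x, ∃ y z, y ≠ z ∧ ∀ w, A x w ↔ w = y ∨ w = z

def autG (A : V → V → Prop) : Subgroup (Equiv.Perm V) where
  carrier := {φ | IsAut A φ}
  one_mem' := fun _ _ => Iff.rfl
  mul_mem' := fun {a b} ha hb x y => by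
    simp only [Equiv.Perm.mul_apply]; exact (ha _ _).trans (hb _ _)
  inv_mem' := fun {a} ha x y => by
    have := ha (a⁻¹ x) (a⁻¹ y)
    simpa using this.symm

variable {A : V → V → Prop}

lemma out2_of_ncard (h : ∀ v, {w | A v w}.ncard = 2) : Out2 A := by
  intro x
  obtain ⟨y, z, hyz, hs⟩ := Set.ncard_eq_two.1 (h x)
  refine ⟨y, z, hyz, fun w => ?_⟩
  have : w ∈ {w | A x w} ↔ w ∈ ({y, z} : Set V) := by rw [hs]
  simpa using this

lemma ncard_of_out2 (h : Out2 A) (v : V) : {w | A v w}.ncard = 2 := by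
  obtain ⟨y, z, hyz, hs⟩ := h v
  refine Set.ncard_eq_two.2 ⟨y, z, hyz, ?_⟩
  ext w; simpa using hs w

lemma Out2.two (h : Out2 A) {x y z w : V} (hy : A x y) (hz : A x z) (hw : A x w) (hyz : y ≠ z) :
    w = y ∨ w = z := by
  obtain ⟨a, b, _, hs⟩ := h x
  rcases (hs _).1 hy with rfl | rfl <;> rcases (hs _).1 hz with rfl | rfl <;>
    rcases (hs _).1 hw with rfl | rfl <;> simp_all

lemma IsAut.adj {φ : Equiv.Perm V} (hφ : IsAut A φ) {x y : V} (hx : φ x = x) (hy : A x y) :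
    A x (φ y) := by
  have := (hφ x y).2 hy; rwa [hx] at this

lemma fix_other (h : Out2 A) {φ : Equiv.Perm V} (hφ : IsAut A φ) {x y z : V} (hx : φ x = x)
    (hy : A x y) (hfy : φ y = y) (hz : A x z) : φ z = z := by
  by_cases hyz : y = z
  · rw [← hyz]; exact hfy
  rcases h.two hy hz (hφ.adj hx hz) hyz with h1 | h1
  · exact absurd (φ.injective (h1.trans hfy.symm)).symm hyz
  · exact h1

lemma swap_eq (h : Out2 A) {φ : Equiv.Perm V} (hφ : IsAut A φ) {x y z : V} (hx : φ x = x)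
    (hy : A x y) (hz : A x z) (hzy : z ≠ y) (hφy : φ y ≠ y) : φ y = z ∧ φ z = y := by
  have h1 : φ y = z := by
    rcases h.two hy hz (hφ.adj hx hy) hzy.symm with h1 | h1
    · exact absurd h1 hφy
    · exact h1
  refine ⟨h1, ?_⟩
  rcases h.two hy hz (hφ.adj hx hz) hzy.symm with h2 | h2
  · exact h2
  · exact absurd (φ.injective (h1.trans h2.symm)).symm hzy

/-- pointwise stabiliser of the first `k+1` vertices of `v` -/
def St (B : Subgroup (Equiv.Perm V)) (v : ℕ → V) (k : ℕ) : Subgroup (Equiv.Perm V) where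
  carrier := {φ | φ ∈ B ∧ ∀ i ≤ k, φ (v i) = v i}
  one_mem' := ⟨B.one_mem, fun _ _ => rfl⟩
  mul_mem' := fun {a b} ha hb => ⟨B.mul_mem ha.1 hb.1, fun i hi => by
    rw [Equiv.Perm.mul_apply, hb.2 i hi, ha.2 i hi]⟩
  inv_mem' := fun {a} ha => ⟨B.inv_mem ha.1, fun i hi => by
    rw [Equiv.Perm.inv_eq_iff_eq, ha.2 i hi]⟩

lemma mem_St {B : Subgroup (Equiv.Perm V)} {v : ℕ → V} {k : ℕ} {φ : Equiv.Perm V} :
    φ ∈ St B v k ↔ φ ∈ B ∧ ∀ i ≤ k, φ (v i) = v i := Iff.rfl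

lemma mem_St_succ {B : Subgroup (Equiv.Perm V)} {v : ℕ → V} {k : ℕ} {φ : Equiv.Perm V} :
    φ ∈ St B v (k + 1) ↔ φ ∈ St B v k ∧ φ (v (k + 1)) = v (k + 1) := by
  constructor
  · intro h
    exact ⟨⟨h.1, fun i hi => h.2 i (by omega)⟩, h.2 _ le_rfl⟩
  · rintro ⟨h, h2⟩
    refine ⟨h.1, fun i hi => ?_⟩
    rcases Nat.lt_or_ge i (k + 1) with h3 | h3
    · exact h.2 i (by omega)
    · have : i = k + 1 := by omega
      rw [this]; exact h2

lemma arc_trans (h : Out2 A) {L : Subgroup (Equiv.Perm V)} (hL : L ≤ autG A)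
    (htr : ∀ x y, ∃ γ ∈ L, γ x = y) {v : ℕ → V} (hv : ∀ n, A (v n) (v (n + 1))) (K : ℕ)
    (hs : ∀ k < K, ∃ α ∈ St L v k, α (v (k + 1)) ≠ v (k + 1)) (w : ℕ → V)
    (hw : ∀ n < K, A (w n) (w (n + 1))) : ∃ γ ∈ L, ∀ i ≤ K, γ (v i) = w i := by
  induction K with
  | zero =>
    obtain ⟨γ, hγ, h0⟩ := htr (v 0) (w 0)
    exact ⟨γ, hγ, fun i hi => by obtain rfl : i = 0 := by omega
                                 exact h0⟩
  | succ K ih =>
    obtain ⟨γ, hγ, h0⟩ := ih (fun k hk => hs k (by omega)) (fun n hn => hw n (by omega))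
    obtain ⟨α, hα, hm⟩ := hs K (by omega)
    have hA : A (v K) (γ⁻¹ (w (K + 1))) := by
      rw [← (hL hγ : IsAut A γ), h0 K le_rfl]
      simpa using hw K (by omega)
    have key : ∀ δ ∈ L, (∀ i ≤ K, δ (v i) = w i) → δ (v (K + 1)) = w (K + 1) →
        ∃ γ ∈ L, ∀ i ≤ K + 1, γ (v i) = w i := by
      intro δ hδ h1 h2
      refine ⟨δ, hδ, fun i hi => ?_⟩
      rcases Nat.lt_or_ge i (K + 1) with h3 | h3
      · exact h1 i (by omega)
      · have : i = K + 1 := by omega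
        rw [this]; exact h2
    rcases h.two (hv K) ((hL hα.1 : IsAut A α).adj (hα.2 K le_rfl) (hv K)) hA hm.symm with h1 | h1
    · exact key γ hγ h0 (by rw [← h1]; simp)
    · refine key (γ * α) (L.mul_mem hγ hα.1) (fun i hi => ?_) (by
        rw [Equiv.Perm.mul_apply, ← h1]; simp)
      rw [Equiv.Perm.mul_apply, hα.2 i hi, h0 i hi]

lemma St_eq_one (h : Out2 A) {L B : Subgroup (Equiv.Perm V)} (hLB : L ≤ B) (hB : B ≤ autG A)
    (htr : ∀ x y, ∃ γ ∈ L, γ x = y) {v : ℕ → V} (hv : ∀ n, A (v n) (v (n + 1))) (K : ℕ)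
    (hs : ∀ k < K, ∃ α ∈ St L v k, α (v (k + 1)) ≠ v (k + 1))
    (hr : ∀ φ ∈ St B v K, φ (v (K + 1)) = v (K + 1))
    (hc : ∀ y, Relation.ReflTransGen A (v K) y) : ∀ φ ∈ St B v K, φ = 1 := by
  intro φ hφ
  have key : ∀ y, Relation.ReflTransGen A (v K) y →
      ∃ w : ℕ → V, (∀ n < K, A (w n) (w (n + 1))) ∧ w K = y ∧ ∀ i ≤ K, φ (w i) = w i := by
    intro y hy
    induction hy with
    | refl => exact ⟨v, fun n _ => hv n, rfl, hφ.2⟩
    | @tail y z _ hyz ih =>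
      obtain ⟨w, hw, hK, hf⟩ := ih
      obtain ⟨γ, hγ, h0⟩ := arc_trans h (hLB.trans hB) htr hv K hs w hw
      have hψ : γ⁻¹ * φ * γ ∈ St B v K := by
        refine ⟨B.mul_mem (B.mul_mem (B.inv_mem (hLB hγ)) hφ.1) (hLB hγ), fun i hi => ?_⟩
        simp only [Equiv.Perm.mul_apply]
        rw [h0 i hi, hf i hi, ← h0 i hi]; simp
      have hA : A (v K) (γ⁻¹ z) := by
        rw [← (hB (hLB hγ) : IsAut A γ), h0 K le_rfl, hK]
        simpa using hyz
      have hz := fix_other h (hB hψ.1) (hψ.2 K le_rfl) (hv K) (hr _ hψ) hA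
      have hz' : φ z = z := by simpa [Equiv.Perm.mul_apply] using hz
      refine ⟨fun i => if i < K then w (i + 1) else z, fun n hn => ?_, by simp, fun i hi => ?_⟩
      · by_cases h1 : n + 1 < K
        · simp only [hn, h1, if_true]; exact hw _ h1
        · have : n + 1 = K := by omega
          simp only [hn, h1, if_true, if_false]; rw [this, hK]; exact hyz
      · by_cases h1 : i < K
        · simp only [h1, if_true]; exact hf _ (by omega)
        · simp only [h1, if_false]; exact hz'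
  ext y
  obtain ⟨w, _, hK, hf⟩ := key y (hc y)
  have := hf K le_rfl
  rw [hK] at this
  simpa using this

lemma step_or (h : Out2 A) {B : Subgroup (Equiv.Perm V)} (hB : B ≤ autG A)
    {v : ℕ → V} (hv : ∀ n, A (v n) (v (n + 1))) {k : ℕ} {α φ : Equiv.Perm V}
    (hα : α ∈ St B v k) (hm : α (v (k + 1)) ≠ v (k + 1)) (hφ : φ ∈ St B v k) :
    Xor (φ * α ∈ St B v (k + 1)) (φ ∈ St B v (k + 1)) := by
  have hA := (hB hα.1 : IsAut A α).adj (hα.2 k le_rfl) (hv k)
  by_cases h1 : φ (v (k + 1)) = v (k + 1)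
  · right
    refine ⟨mem_St_succ.2 ⟨hφ, h1⟩, fun h2 => hm ?_⟩
    have h3 := (mem_St_succ.1 h2).2
    rw [Equiv.Perm.mul_apply] at h3
    exact φ.injective (h3.trans h1.symm)
  · left
    refine ⟨mem_St_succ.2 ⟨(St B v k).mul_mem hφ hα, ?_⟩, fun h2 => h1 (mem_St_succ.1 h2).2⟩
    exact (swap_eq h (hB hφ.1) (hφ.2 k le_rfl) (hv k) hA hm h1).2

lemma card_of_xor {G : Type} [Group G] {U W : Subgroup G} (hle : U ≤ W) {a : G} (ha : a ∈ W)
    (hx : ∀ b ∈ W, Xor (b * a ∈ U) (b ∈ U)) : Nat.card W = 2 * Nat.card U := by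
  have h1 : (U.subgroupOf W).index = 2 :=
    Subgroup.index_eq_two_iff.2 ⟨⟨a, ha⟩, fun b => by
      simpa [Subgroup.mem_subgroupOf] using hx b b.2⟩
  have h2 := (U.subgroupOf W).card_mul_index
  rw [h1, Nat.card_congr (Subgroup.subgroupOfEquivOfLe hle).toEquiv] at h2
  omega

lemma St_le {B : Subgroup (Equiv.Perm V)} {v : ℕ → V} {k : ℕ} : St B v (k + 1) ≤ St B v k :=
  fun _ h => (mem_St_succ.1 h).1

lemma card_St (h : Out2 A) {B : Subgroup (Equiv.Perm V)} (hB : B ≤ autG A)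
    {v : ℕ → V} (hv : ∀ n, A (v n) (v (n + 1))) (K : ℕ)
    (hs : ∀ k < K, ∃ α ∈ St B v k, α (v (k + 1)) ≠ v (k + 1))
    (h1 : ∀ φ ∈ St B v K, φ = 1) : Nat.card (St B v 0) = 2 ^ K := by
  have key : ∀ j ≤ K, Nat.card (St B v (K - j)) = 2 ^ j := by
    intro j
    induction j with
    | zero =>
      intro _
      have : St B v K = ⊥ := (Subgroup.eq_bot_iff_forall _).2 h1
      simp [this]
    | succ j ih =>
      intro hj
      obtain ⟨α, hα, hm⟩ := hs (K - (j + 1)) (by omega)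
      have h2 := card_of_xor St_le hα (fun b hb => step_or h hB hv hα hm hb)
      have h3 : K - (j + 1) + 1 = K - j := by omega
      rw [h2, h3, ih (by omega)]; ring
  simpa using key K le_rfl

lemma St_le_of_swaps (h : Out2 A) {B U : Subgroup (Equiv.Perm V)} (hB : B ≤ autG A)
    {v : ℕ → V} (hv : ∀ n, A (v n) (v (n + 1))) (K : ℕ)
    (hs : ∀ k < K, ∃ α ∈ St B v k, α ∈ U ∧ α (v (k + 1)) ≠ v (k + 1))
    (h1 : ∀ φ ∈ St B v K, φ = 1) : St B v 0 ≤ U := by
  have key : ∀ j ≤ K, St B v (K - j) ≤ U := by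
    intro j
    induction j with
    | zero =>
      intro _ φ hφ
      rw [h1 φ (by simpa using hφ)]; exact U.one_mem
    | succ j ih =>
      intro hj φ hφ
      obtain ⟨α, hα, hU, hm⟩ := hs (K - (j + 1)) (by omega)
      have h3 : K - (j + 1) + 1 = K - j := by omega
      rcases step_or h hB hv hα hm hφ with h2 | h2
      · have := ih (by omega) (h3 ▸ h2.1)
        simpa using U.mul_mem this (U.inv_mem hU)
      · exact ih (by omega) (h3 ▸ h2.1)
  simpa using key K le_rfl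

lemma le_of_trans_St {L B : Subgroup (Equiv.Perm V)} (hLB : L ≤ B)
    (htr : ∀ x y, ∃ γ ∈ L, γ x = y) {v : ℕ → V} (h0 : St B v 0 ≤ L) : B ≤ L := by
  intro φ hφ
  obtain ⟨γ, hγ, hx⟩ := htr (v 0) (φ (v 0))
  have : γ⁻¹ * φ ∈ St B v 0 := by
    refine ⟨B.mul_mem (B.inv_mem (hLB hγ)) hφ, fun i hi => ?_⟩
    obtain rfl : i = 0 := by omega
    rw [Equiv.Perm.mul_apply, ← hx]; simp
  simpa using L.mul_mem hγ (h0 this)

/-- a presentation gives an action -/
lemma pres_action {D : Digraph V} {G : Type} [Group G] {H : Subgroup G} {S : Set G}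
    (hp : IsPres D G H S) : (∀ v, ¬ D.Adj v v) ∧ ∃ (ρ : G →* Equiv.Perm V) (v0 : V),
      ρ.range ≤ autG D.Adj ∧ (∀ x y, ∃ γ ∈ ρ.range, γ x = y) ∧ ∀ g, ρ g v0 = v0 ↔ g ∈ H := by
  obtain ⟨hd, e, he⟩ := hp
  have hsurj : ∀ v : V, ∃ x : G, v = e.symm (x : G ⧸ H) := by
    intro v
    obtain ⟨x, hx⟩ := QuotientGroup.mk_surjective (e v)
    exact ⟨x, by rw [hx]; simp⟩
  constructor
  · intro v hv
    obtain ⟨x, rfl⟩ := hsurj v
    rw [he] at hv
    obtain ⟨_, ⟨a, ha, s, hs, rfl⟩, b, hb, h3⟩ := hv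
    have : s = a⁻¹ * b⁻¹ := by
      have h4 : a * s * b = 1 := by simpa using h3
      calc s = a⁻¹ * (a * s * b) * b⁻¹ := by group
        _ = _ := by rw [h4]; simp
    exact Set.disjoint_left.1 hd hs (this ▸ H.mul_mem (H.inv_mem ha) (H.inv_mem hb))
  let ρ : G →* Equiv.Perm V :=
    (e.symm.permCongrHom.toMonoidHom).comp (MulAction.toPermHom G (G ⧸ H))
  have hρ : ∀ g x : G, ρ g (e.symm (x : G ⧸ H)) = e.symm ((g * x : G) : G ⧸ H) := by
    intro g x
    simp [ρ, Equiv.permCongrHom]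
  refine ⟨ρ, e.symm ((1 : G) : G ⧸ H), ?_, ?_, ?_⟩
  · rintro _ ⟨g, rfl⟩ x y
    obtain ⟨x, rfl⟩ := hsurj x
    obtain ⟨y, rfl⟩ := hsurj y
    rw [hρ, hρ, he, he]
    have : (g * x)⁻¹ * (g * y) = x⁻¹ * y := by group
    rw [this]
  · intro x y
    obtain ⟨x, rfl⟩ := hsurj x
    obtain ⟨y, rfl⟩ := hsurj y
    exact ⟨ρ (y * x⁻¹), ⟨_, rfl⟩, by rw [hρ]; simp⟩
  · intro g
    rw [hρ, e.symm.apply_eq_iff_eq, eq_comm, QuotientGroup.eq]
    simp

/-- a transitive group of automorphisms gives a presentation -/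
lemma hasPres_of [Finite V] {D : Digraph V} (hl : ∀ v, ¬ D.Adj v v)
    {L : Subgroup (Equiv.Perm V)} (hL : L ≤ autG D.Adj) (htr : ∀ x y, ∃ γ ∈ L, γ x = y)
    (v : ℕ → V) : HasPres D (Nat.card (St L v 0)) := by
  let H : Subgroup L := (St L v 0).subgroupOf L
  have hH : ∀ g : L, g ∈ H ↔ (g : Equiv.Perm V) (v 0) = v 0 := by
    intro g
    simp only [H, Subgroup.mem_subgroupOf, mem_St]
    exact ⟨fun h => h.2 0 le_rfl, fun h => ⟨g.2, fun i hi => by
      obtain rfl : i = 0 := by omega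
      exact h⟩⟩
  let f : L ⧸ H → V := Quotient.lift (fun g : L => (g : Equiv.Perm V) (v 0)) (by
    intro a b hab
    have h1 := (hH _).1 (QuotientGroup.leftRel_apply.1 hab)
    simp only [Subgroup.coe_mul, Subgroup.coe_inv, Equiv.Perm.mul_apply] at h1
    rw [Equiv.Perm.inv_eq_iff_eq] at h1
    exact h1.symm)
  have hf : ∀ g : L, f (g : L ⧸ H) = (g : Equiv.Perm V) (v 0) := fun g => rfl
  have hb : Function.Bijective f := by
    constructor
    · intro a b hab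
      obtain ⟨a, rfl⟩ := QuotientGroup.mk_surjective a
      obtain ⟨b, rfl⟩ := QuotientGroup.mk_surjective b
      rw [hf, hf] at hab
      rw [QuotientGroup.eq, hH]
      simp only [Subgroup.coe_mul, Subgroup.coe_inv, Equiv.Perm.mul_apply]
      rw [← hab]; simp
    · intro y
      obtain ⟨γ, hγ, h⟩ := htr (v 0) y
      exact ⟨((⟨γ, hγ⟩ : L) : L ⧸ H), h⟩
  refine ⟨L, inferInstance, inferInstance, H, {g | D.Adj (v 0) ((g : Equiv.Perm V) (v 0))},
    ⟨?_, (Equiv.ofBijective f hb).symm, fun x y => ?_⟩, ?_⟩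
  · rw [Set.disjoint_left]
    intro g hg hgH
    have h1 := (hH g).1 hgH
    simp only [Set.mem_ofPred_eq] at hg
    rw [h1] at hg
    exact hl _ hg
  · have e1 : D.Adj ((x : Equiv.Perm V) (v 0)) ((y : Equiv.Perm V) (v 0)) ↔
        D.Adj (v 0) (((x⁻¹ * y : L) : Equiv.Perm V) (v 0)) := by
      rw [← (hL x.2 : IsAut _ _) (v 0)]
      simp
    simp only [Equiv.symm_symm, Equiv.ofBijective_apply, hf]
    rw [e1]
    constructor
    · intro h1
      exact ⟨_, ⟨1, H.one_mem, x⁻¹ * y, h1, rfl⟩, 1, H.one_mem, by simp⟩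
    · rintro ⟨_, ⟨a, ha, s, hs, rfl⟩, b, hb, h3⟩
      rw [← h3]
      simp only [Subgroup.coe_mul, Equiv.Perm.mul_apply]
      rw [(hH b).1 hb]
      exact (hL a.2 : IsAut _ _).adj ((hH a).1 ha) hs
  · exact Nat.card_congr (Subgroup.subgroupOfEquivOfLe (fun _ h => (mem_St.1 h).1)).toEquiv

lemma card_St_le {G : Type} [Group G] [Finite G] {H : Subgroup G} (ρ : G →* Equiv.Perm V) (v0 : V)
    (hH : ∀ g, ρ g v0 = v0 ↔ g ∈ H) (htr : ∀ x y, ∃ γ ∈ ρ.range, γ x = y) (v : ℕ → V) :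
    Nat.card (St ρ.range v 0) ≤ Nat.card H := by
  obtain ⟨_, ⟨x, rfl⟩, hx⟩ := htr v0 (v 0)
  refine Nat.card_le_card_of_surjective
    (fun h : H => (⟨ρ (x * h * x⁻¹), ⟨_, rfl⟩, fun i hi => ?_⟩ : St ρ.range v 0)) ?_
  · obtain rfl : i = 0 := by omega
    rw [← hx]
    simp [(hH h).2 h.2]
  · rintro ⟨_, ⟨g, rfl⟩, h2⟩
    refine ⟨⟨x⁻¹ * g * x, (hH _).1 ?_⟩, ?_⟩
    · simp only [map_mul, map_inv, Equiv.Perm.mul_apply]
      rw [hx, h2 0 le_rfl, ← hx]; simp
    · apply Subtype.ext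
      simp [mul_assoc]

lemma trans_of {U : Subgroup (Equiv.Perm V)} (hU : U ≤ autG A) {x0 : V}
    (hc : ∀ y, Relation.ReflTransGen A x0 y) (hz : ∀ z, A x0 z → ∃ u ∈ U, u x0 = z) :
    ∀ x y, ∃ γ ∈ U, γ x = y := by
  have key : ∀ y, Relation.ReflTransGen A x0 y → ∃ u ∈ U, u x0 = y := by
    intro y hy
    induction hy with
    | refl => exact ⟨1, U.one_mem, rfl⟩
    | @tail y z _ hyz ih =>
      obtain ⟨u, hu, rfl⟩ := ih
      have hA : A x0 (u⁻¹ z) := by
        rw [← (hU hu : IsAut A u)]; simpa using hyz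
      obtain ⟨w, hw, h1⟩ := hz _ hA
      exact ⟨u * w, U.mul_mem hu hw, by rw [Equiv.Perm.mul_apply, h1]; simp⟩
  intro x y
  obtain ⟨u, hu, rfl⟩ := key x (hc x)
  obtain ⟨w, hw, rfl⟩ := key y (hc y)
  exact ⟨w * u⁻¹, U.mul_mem hw (U.inv_mem hu), by simp⟩

/-- walks of a given length -/
def Wk (A : V → V → Prop) : ℕ → V → V → Prop
  | 0, x, y => x = y
  | n + 1, x, z => ∃ y, Wk A n x y ∧ A y z

lemma Wk.map {φ : Equiv.Perm V} (hφ : IsAut A φ) {n : ℕ} {x y : V} (h : Wk A n x y) :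
    Wk A n (φ x) (φ y) := by
  induction n generalizing y with
  | zero => exact congrArg φ h
  | succ n ih =>
    obtain ⟨z, h1, h2⟩ := h
    exact ⟨φ z, ih h1, (hφ _ _).2 h2⟩

lemma Wk.rtg {n : ℕ} {x y : V} (h : Wk A n x y) : Relation.ReflTransGen A x y := by
  induction n generalizing y with
  | zero => exact (show x = y from h) ▸ Relation.ReflTransGen.refl
  | succ n ih =>
    obtain ⟨z, h1, h2⟩ := h
    exact (ih h1).tail h2

lemma wk_of_path (p : ℕ → V) (s n : ℕ) (h : ∀ k < n, A (p (s + k)) (p (s + k + 1))) :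
    Wk A n (p s) (p (s + n)) := by
  induction n with
  | zero => exact rfl
  | succ n ih => exact ⟨p (s + n), ih (fun k hk => h k (by omega)), h n (by omega)⟩

lemma Wk.path {n : ℕ} {x y : V} (h : Wk A n x y) :
    ∃ p : ℕ → V, p 0 = x ∧ p n = y ∧ ∀ k < n, A (p k) (p (k + 1)) := by
  induction n generalizing y with
  | zero => exact ⟨fun _ => x, rfl, h, fun k hk => by omega⟩
  | succ n ih =>
    obtain ⟨z, h1, h2⟩ := h
    obtain ⟨p, h0, hn, hp⟩ := ih h1
    refine ⟨fun k => if k ≤ n then p k else y, by simpa using h0, by simp, fun k hk => ?_⟩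
    by_cases h3 : k + 1 ≤ n
    · simp only [h3, (show k ≤ n by omega), if_true]; exact hp k (by omega)
    · obtain rfl : k = n := by omega
      simp only [h3, le_refl, if_true, if_false]; rw [hn]; exact h2

end Pool.Agent.MP_89824e_co
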